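import Pool.Agent.helper1.P2T.AllG
import Pool.Agent.helper98.P2F.All
import Pool.Agent.helper56.CH.Main
import Pool.Agent.helper39.NCA.NDX
import Pool.Agent.helper75.NCA.KNL
import Pool.Agent.helper89.NCA.CLO
import Pool.Agent.helper13.NCA.BPX
import Pool.Agent.helper45.NCA.AFA
import Pool.Agent.helper11.NCA.EQV
import Pool.Agent.helper33.NCA.ONT
import Pool.Agent.helper98.NCA.LFU
import Pool.Agent.helper28.NCA.ISO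
import Pool.Agent.helper19.NCA.DNS
import Pool.Agent.helper9.NCA.CRB
import Pool.Agent.helper99.NCA.TRS
import Pool.Agent.helper64.NCA.BND
import Pool.Agent.helper98.NCA.SLB
import Pool.Agent.helper98.NCA.CHQ
import Pool.Agent.helper79.NCA.NFX
import Pool.Agent.helper87.NCA.DIR
import Pool.Agent.helper17.NCA.NJM
import Pool.Agent.helper45.NCA.SPP
import Pool.Agent.helper88.NCA.IJS
import Pool.Agent.helper98.NCA.GEX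
import Pool.Agent.helper98.NCA.HDI
import Pool.Agent.helper56.NCA.PPR56
import Pool.Agent.helper56.NCA.PST56
import Pool.Agent.helper56.NCA.VLM56
import Pool.Agent.helper20.NCA.PDI
import Pool.Agent.helper56.NCA.RTE56
import Pool.Agent.helper68.NCA.SEC
import Pool.Agent.helper6.NCA.BIG6
import Pool.Agent.helper1.P2T.Top
import Pool.Agent.helper98.NCA.HPX
import Pool.Agent.helper85.NCA.NCI
import Pool.Agent.helper68.NCA.NVX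
import Pool.Agent.helper22.NCA.NB

/-!
# Project p2k: (MP_70a088_an, P2): block NC, assembled, hypothesis free
-/

set_option autoImplicit false

namespace NCM

open P2TG

theorem NDX_m : NCA.NDX_stmt := NCA.NDX FRY_m P2M.FRX_m PM.MM_TKO PM.MM_TIN PM.MM_TDF PM.ZZ_VKF PM.MM_VCF P2M.VSM_m
theorem KNL_m : NCA.KNL_stmt := NCA.KNL KER_m P2M.FRS_m P2M.TLX_m P2M.DIC_m V3.TMO PL.DCO PM.MM_TDF PM.MM_TPM PM.ZZ_VKF PM.MM_VCF
theorem CLO_m : NCA.CLO_stmt := NCA.CLO KNL_m V3.TMO V3A.TUL_v PL.DCO PM.MM_TDF PM.ZZ_VKF PM.MM_VCF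
theorem BPX_m : NCA.BPX_stmt := NCA.BPX PSB_m
theorem AFA_m : NCA.AFA_stmt := NCA.AFA REL_m PSB_m V3.KO1
theorem LFU_m : NCA.LFU_stmt := NCA.LFU P2FM.PLG_m PM.MM_TDF
theorem ISO_m : NCA.ISO_stmt := NCA.ISO PM.MM_TDF PM.MM_TPM V3.KO0
theorem DNS_m : NCA.DNS_stmt := NCA.DNS
theorem CRB_m : NCA.CRB_stmt := NCA.CRB PM.MM_TKO PM.MM_TDF
theorem TRS_m : NCA.TRS_stmt := NCA.TRS V3.KO0 KO3_m PM.MM_TKO PM.MM_TDF
theorem BND_m : NCA.BND_stmt := NCA.BND PM.MM_TDF ISO_m CRB_m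
theorem SLB_m : NCA.SLB_stmt := NCA.SLB98 PSB_m
theorem EQV_m : NCA.EQV_stmt := NCA.EQV SLB_m EXW_m PSB_m
theorem ONT_m : NCA.ONT_stmt := NCA.ONT SLB_m PSB_m PLC.FIB_c
theorem NFX_m : NCA.NFX_stmt := NCA.NFX SLB_m PSB_m PLC.CRI_c PM.MM_TSP PM.MM_TDF
theorem CHQ_m : NCA.CHQ_stmt := NCA.CHQ98
theorem DIR_m : NCA.DIR_stmt := NCA.DIR V3.KO0 KO3_m
theorem NJM_m : NCA.NJM_stmt := NCA.NJM
theorem SPP_m : NCA.SPP_stmt := NCA.SPP CHQ_m DNS_m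
theorem IJS_m : NCA.IJS_stmt := NCA.IJS SLB_m ONT_m LFU_m PSB_m PLC.FIB_c PM.MM_TDF PM.MM_TPM V3.KO0
theorem GEX_m : NCA.GEX_stmt := NCA.GEX98 KNL_m AFA_m SLB_m EQV_m ONT_m NFX_m IJS_m PSB_m
theorem HDI_m : NCA.HDI_stmt := NCA.HDI98 CHQ_m PM.MM_TDF PM.MM_TPT PM.MM_TSP PM.ZZ_VKF PM.MM_VCF
theorem PPR_m : NCA.PPR_stmt := NCA.PPR56 CHQ_m DIR_m NJM_m KNL_m
theorem PST_m : NCA.PST_stmt := NCA.PST56 CHQ_m DIR_m NJM_m DNS_m CHM.WNI_m KNL_m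
theorem VLM_m : NCA.VLM_stmt := NCA.VLM56 PLB.LIV_b V3.TMO KNL_m
theorem PDI_m : NCA.PDI_stmt := NCA.PDI HDI_m DIR_m NJM_m KNL_m PM.MM_TKO PM.MM_VCF
theorem RTE_m : NCA.RTE_stmt := NCA.RTE56 HDI_m DIR_m NJM_m CHQ_m DNS_m KNL_m PM.MM_TKO PM.MM_TDF PM.MM_VCF
theorem SEC_m : NCA.SEC_stmt := NCA.SEC68 PM.MM_TKO PM.MM_TDF PM.MM_TPT (P2W.SUC P2W.PRM)
theorem HPX_m : NCA.HPX_stmt := NCA.HPX KNL_m GEX_m PST_m PPR_m SPP_m PDI_m RTE_m VLM_m SEC_m TRS_m ISO_m SLB_m PM.MM_TSP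
theorem BIG_m : NCA.BIG_stmt := NCA.BIG6 KNL_m CRB_m ISO_m PSL_m PSB_m MDN_m PM.MM_TDF PM.MM_TPM PM.MM_TIN PM.MM_TKO PM.ZZ_VKF PM.MM_VCF V3.KO1 KO3_m
/-- closings of small quality are infinitesimal -/
theorem NCI_m : NCA.NCI_stmt := NCA.NCI KNL_m CLO_m BPX_m HPX_m BND_m BIG_m
/-- OUTPUT OF BLOCK NC, without hypotheses -/
theorem NCO_m : P2T.NCO_stmt := NCA.NB KO3_m V3.TMO PM.MM_TIN PM.MM_TDF PM.MM_VCF P2M.VSM_m FRY_m FAW_m ENT_m (NCA.NVX NDX_m NCI_m)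

end NCM
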